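import Pool.Agent.W21.RV.Defs
import Pool.Agent.W23.DC.Fin2

/-!
RV project (helper21), task QS: the sum over the middle primes (one range).
Adapted from `part` in `Pool/Agent/W23/DC/Fin2.lean`.
-/

set_option autoImplicit false

namespace Pool.Agent.W855.RV

open Finset
open Pool.Agent.H442R2
open Pool.Agent.H442R2.KF
open Pool.Agent.W23.DC
open Pool.Agent.W21.RV

theorem QS (hMI : St_MI) (hMP : St_MP) : St_QS := by
  intro η₂ hη
  set h : ℝ → ℝ := fun x => 21 / 20 * (1 - x / (2 / 5)) / (12 / 25 - x) with hh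
  have hc : ContinuousOn h (Set.Icc (1 / 8) (2 / 5)) := by
    apply ContinuousOn.div
    · fun_prop
    · fun_prop
    · intro x hx
      have := hx.2
      linarith
  obtain ⟨H, hH⟩ := isCompact_Icc.exists_bound_of_continuousOn hc
  have hu := isCompact_Icc.uniformContinuousOn_of_continuous hc
  set κ : ℝ := η₂ / (2 * Real.log (1 / (1 / 8)) + 2) with hκ
  have hlog : 0 < Real.log (1 / (1 / 8)) := Real.log_pos (by norm_num)
  have hκ0 : 0 < κ := by positivity
  rw [Metric.uniformContinuousOn_iff] at hu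
  obtain ⟨ρ, hρ, hu⟩ := hu κ hκ0
  obtain ⟨η, hη0, HH⟩ := hMI (1 / 8) (ρ / 2) κ (max H 1) (by norm_num) (by norm_num) (by positivity)
    hκ0 (by positivity)
  obtain ⟨N₀, hN₀⟩ := mer_of hMP (1 / 8) (2 / 5) η (by norm_num) (by norm_num) hη0
  refine ⟨N₀, fun N hN => ?_⟩
  have key := HH (pr N (1 / 8) (2 / 5)) (tt N) (fun p => 1 / ((p : ℝ) - 1)) (2 / 5)
    (by norm_num) g_nonneg (hN₀ N hN) (1 / 8) (2 / 5) h le_rfl (by norm_num) le_rfl hc
    (fun x hx => (hH x hx).trans (le_max_left _ _))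
    (fun x hx y hy hxy => by
      have h1 := hu x hx y hy (by
        rw [Real.dist_eq]
        linarith)
      rw [Real.dist_eq] at h1
      exact h1.le)
  rw [pr_sub N (1 / 8) (2 / 5) (1 / 8) (2 / 5) le_rfl le_rfl] at key
  have e1 : κ * (2 * Real.log (1 / (1 / 8)) + 2) = η₂ := by
    rw [hκ]
    field_simp
  rw [e1] at key
  have e2 : ∫ x in (1 / 8 : ℝ)..(2 / 5), h x / x =
      21 / 20 * ∫ x in (1 / 8 : ℝ)..(2 / 5), (1 - x / (2 / 5)) / (x * (12 / 25 - x)) := by
    rw [← intervalIntegral.integral_const_mul]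
    apply intervalIntegral.integral_congr
    intro x hx
    rw [Set.uIcc_of_le (by norm_num)] at hx
    have h1 : x ≠ 0 := by
      have := hx.1
      intro h
      rw [h] at this
      linarith
    have h2 : 12 / 25 - x ≠ 0 := by
      have := hx.2
      intro h
      linarith
    simp only [hh]
    field_simp
  rw [e2] at key
  have h3 := (abs_le.1 key).2
  have h4 : ∑ q ∈ pr N (1 / 8) (2 / 5), 1 / ((q : ℝ) - 1) * (cw N q / (12 / 25 - tt N q)) =
      ∑ q ∈ pr N (1 / 8) (2 / 5), 1 / ((q : ℝ) - 1) * h (tt N q) := by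
    apply Finset.sum_congr rfl
    intro q _
    simp only [hh, cw]
  rw [h4]
  linarith

end Pool.Agent.W855.RV
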